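import Pool.Agent.X328.GN.Stm
import Pool.Agent.H497R2.Der

/-! Project GN of helper328: the parameters are algebraic over the field of the multipliers. -/

set_option autoImplicit false

open Finset Polynomial

noncomputable section

namespace Pool.Agent.X169.GN

open Pool.Agent.X328.GN

/-! ### the centre -/

section

variable {A : Type*} [CommRing A]

theorem nu_zero (d : ℕ) : nu d (fun _ => (0 : A)) = X ^ d := by
  simp [nu]

theorem de_zero (d : ℕ) : de d (fun _ => (0 : A)) = 1 := by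
  simp [de]

theorem hm_X (d : ℕ) (P Q : A[X]) : hm d (X ^ d) P Q = P ^ d := by
  rw [hm, Finset.sum_eq_single d]
  · simp
  · intro i _ hi
    rw [coeff_X_pow, if_neg hi, C_0, zero_mul, zero_mul]
  · intro h
    exact absurd (Finset.mem_range.2 (Nat.lt_succ_self d)) h

theorem hm_one (d : ℕ) (P Q : A[X]) : hm d 1 P Q = Q ^ d := by
  rw [hm, Finset.sum_eq_single 0]
  · simp
  · intro i _ hi
    rw [coeff_one, if_neg hi, C_0, zero_mul, zero_mul]
  · intro h
    exact absurd (Finset.mem_range.2 (Nat.succ_pos d)) h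

theorem it_zero (d n : ℕ) : it d (X ^ d : A[X]) 1 n = (X ^ d ^ n, 1) := by
  induction n with
  | zero => simp [it]
  | succ n ih =>
    rw [it, ih, hm_X, hm_one]
    simp only [one_pow]
    rw [← pow_mul, pow_succ]

theorem Ph_zero (d : ℕ) : Ph d (fun _ => (0 : A)) = X ^ d ^ 3 - X := by
  rw [Ph, P3, Q3, nu_zero, de_zero, it_zero, mul_one]

end

section

variable {K : Type*} [Field K]

theorem sum_deg {d : ℕ} (t : Fin (d - 1) → K) :
    (∑ i : Fin (d - 1), C (t i) * X ^ (i.1 + 1) : K[X]).degree < d := by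
  rw [← mem_degreeLT]
  refine Submodule.sum_mem _ fun i _ => ?_
  rw [mem_degreeLT]
  refine (degree_C_mul_X_pow_le _ _).trans_lt ?_
  have := i.2
  exact_mod_cast (by omega : i.1 + 1 < d)

theorem nu_monic {d : ℕ} (t : Ix d → K) : (nu d t).Monic := monic_X_pow_add (sum_deg _)

theorem nu_deg {d : ℕ} (t : Ix d → K) : (nu d t).natDegree = d := by
  have h : (nu d t).degree = d := by
    rw [nu, degree_add_eq_left_of_degree_lt (by rw [degree_X_pow]; exact sum_deg _), degree_X_pow]
  exact natDegree_eq_of_degree_eq_some h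

theorem de_deg {d : ℕ} (hd : 2 ≤ d) (t : Ix d → K) : (de d t).natDegree < d := by
  have h : (de d t).degree < d := by
    refine (degree_add_le _ _).trans_lt (max_lt ?_ (sum_deg _))
    refine degree_C_le.trans_lt ?_
    exact_mod_cast (by omega : 0 < d)
  by_cases h0 : de d t = 0
  · rw [h0, natDegree_zero]
    omega
  · exact (natDegree_lt_iff_degree_lt h0).2 h

end

/-! ### valuations -/

/-- a valuation ring which dominates the localization at the origin -/
theorem exists_val (d : ℕ) (Om : Type) [Field Om] (φ : MvPolynomial (Ix d) ℚ →+* Om)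
    (hφ : Function.Injective φ) : ∃ O : ValuationSubring Om, (∀ n : ℕ, n ≠ 0 → (n : Om)⁻¹ ∈ O) ∧
      ∀ i, O.valuation (φ (MvPolynomial.X i)) < 1 := by
  let ev : MvPolynomial (Ix d) ℚ →+* ℚ := (MvPolynomial.aeval fun _ => (0 : ℚ)).toRingHom
  let e : MvPolynomial (Ix d) ℚ ≃+* φ.range := RingEquiv.ofBijective φ.rangeRestrict
    ⟨fun x y h => hφ (congrArg Subtype.val h), φ.rangeRestrict_surjective⟩
  let I : Ideal φ.range := (RingHom.ker ev).comap (e.symm : φ.range →+* MvPolynomial (Ix d) ℚ)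
  have hI : I ≠ ⊤ := by
    rw [Ne, Ideal.eq_top_iff_one]
    intro h
    have h1 : ev (e.symm 1) = 0 := h
    rw [map_one, map_one] at h1
    exact one_ne_zero h1
  obtain ⟨O, hO1, hO2⟩ := Ideal.image_subset_nonunits_valuationSubring I hI
  refine ⟨O, fun n hn => ?_, fun i => ?_⟩
  · apply hO1
    refine ⟨MvPolynomial.C (n : ℚ)⁻¹, ?_⟩
    have h1 : φ (MvPolynomial.C (n : ℚ)⁻¹) * (n : Om) = 1 := by
      rw [← map_natCast (φ.comp MvPolynomial.C) n, RingHom.comp_apply, ← map_mul, ← map_mul,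
        inv_mul_cancel₀ (by exact_mod_cast hn), map_one, map_one]
    exact eq_inv_of_mul_eq_one_left h1
  · rw [← ValuationSubring.mem_nonunits_iff]
    apply hO2
    refine ⟨e (MvPolynomial.X i), ?_, rfl⟩
    show ev (e.symm (e (MvPolynomial.X i))) = 0
    rw [RingEquiv.symm_apply_apply]
    exact MvPolynomial.aeval_X _ _

theorem cop {d : ℕ} (hd : 2 ≤ d) {Om : Type} [Field Om] [IsAlgClosed Om] (O : ValuationSubring Om)
    (t : Ix d → Om) (ht : ∀ i, O.valuation (t i) < 1) : IsCoprime (nu d t) (de d t) := by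
  rw [isCoprime_iff_aeval_ne_zero_of_isAlgClosed Om Om]
  intro x
  by_contra hcon
  push Not at hcon
  obtain ⟨h1, h2⟩ := hcon
  set v := O.valuation with hv
  have hsum : ∀ (s : Finset (Fin (d - 1))) (f : Fin (d - 1) → Om) (b : O.ValueGroup), 0 < b →
      (∀ i, v (f i) < b) → v (∑ i ∈ s, f i) < b := by
    intro s f b hb hf
    exact Valuation.map_sum_lt v hb.ne' fun i _ => hf i
  rw [nu, map_add, map_pow, aeval_X, map_sum] at h1
  simp only [map_mul, aeval_C, map_pow, aeval_X, Algebra.algebraMap_self, RingHom.id_apply] at h1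
  have hx1 : v x < 1 := by
    by_contra hx
    push Not at hx
    have h3 : v (∑ i : Fin (d - 1), t (Sum.inl i) * x ^ (i.1 + 1)) < v x ^ d := by
      refine hsum _ _ _ (lt_of_lt_of_le zero_lt_one (one_le_pow₀ hx)) fun i => ?_
      rw [map_mul, map_pow]
      have hpos : 0 < v x ^ (i.1 + 1) := lt_of_lt_of_le zero_lt_one (one_le_pow₀ hx)
      calc v (t (Sum.inl i)) * v x ^ (i.1 + 1) < 1 * v x ^ (i.1 + 1) :=
            mul_lt_mul_of_pos_right (ht _) hpos
        _ = v x ^ (i.1 + 1) := one_mul _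
        _ ≤ v x ^ d := pow_le_pow_right₀ hx (by have := i.2; omega)
    have h4 : x ^ d = -∑ i : Fin (d - 1), t (Sum.inl i) * x ^ (i.1 + 1) :=
      eq_neg_of_add_eq_zero_left h1
    rw [← map_pow, h4, Valuation.map_neg] at h3
    exact lt_irrefl _ h3
  rw [de, map_add, map_sum] at h2
  simp only [map_mul, aeval_C, map_pow, aeval_X, Algebra.algebraMap_self, RingHom.id_apply] at h2
  have h5 : v (∑ i : Fin (d - 1), t (Sum.inl i)) < 1 := hsum _ _ _ zero_lt_one fun i => ht _
  have h6 : v (∑ i : Fin (d - 1), t (Sum.inr i)) < 1 := hsum _ _ _ zero_lt_one fun i => ht _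
  have h7 : v (∑ i : Fin (d - 1), t (Sum.inr i) * x ^ (i.1 + 1)) < 1 := by
    refine hsum _ _ _ zero_lt_one fun i => ?_
    rw [map_mul, map_pow]
    calc v (t (Sum.inr i)) * v x ^ (i.1 + 1) ≤ v (t (Sum.inr i)) * 1 :=
          mul_le_mul_right (pow_le_one₀ zero_le hx1.le) _
      _ < 1 := by rw [mul_one]; exact ht _
  have h8 : (1 : Om) = -(∑ i : Fin (d - 1), t (Sum.inl i) - ∑ i : Fin (d - 1), t (Sum.inr i) +
      ∑ i : Fin (d - 1), t (Sum.inr i) * x ^ (i.1 + 1)) := by
    linear_combination h2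
  have h9 : v (1 : Om) < 1 := by
    rw [h8, Valuation.map_neg]
    exact Valuation.map_add_lt _ (Valuation.map_sub_lt _ h5 h6) h7
  rw [map_one] at h9
  exact lt_irrefl _ h9

/-! ### the leading coefficients -/

theorem lead_Ph (hCHI : S_CHI.{0, 0}) (d : ℕ) (hd : 2 ≤ d) :
    (Ph d (fun i => (MvPolynomial.X i : MvPolynomial (Ix d) ℚ))).coeff (d ^ 3) ≠ 0 := by
  intro h
  let ev : MvPolynomial (Ix d) ℚ →+* ℚ := (MvPolynomial.aeval fun _ => (0 : ℚ)).toRingHom
  have h1 := (hCHI.1 (MvPolynomial (Ix d) ℚ) ℚ ev d (fun i => MvPolynomial.X i)).2.2.1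
  have h2 : (fun i : Ix d => ev (MvPolynomial.X i)) = fun _ => (0 : ℚ) := by
    funext i
    exact MvPolynomial.aeval_X _ _
  rw [h2, Ph_zero] at h1
  have h3 := congrArg (fun p : ℚ[X] => p.coeff (d ^ 3)) h1
  simp only [coeff_map, h, map_zero, coeff_sub, coeff_X_pow_self] at h3
  have h4 : (X : ℚ[X]).coeff (d ^ 3) = 0 := by
    rw [coeff_X, if_neg]
    have : 2 ^ 3 ≤ d ^ 3 := Nat.pow_le_pow_left hd 3
    omega
  rw [h4] at h3
  norm_num at h3

theorem prod_facts {K : Type} [Field K] (c : K) (s : Multiset K) (N : ℕ) (hs : s.card = N) :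
    (C c * (s.map fun y => (X - C y : K[X])).prod).natDegree ≤ N ∧
      (C c * (s.map fun y => (X - C y : K[X])).prod).coeff N = c := by
  have h1 : ((s.map fun y => (X - C y : K[X])).prod).Monic :=
    monic_multiset_prod_of_monic _ _ fun y _ => monic_X_sub_C y
  have h2 : ((s.map fun y => (X - C y : K[X])).prod).natDegree = N := by
    rw [natDegree_multiset_prod_X_sub_C_eq_card, hs]
  refine ⟨(natDegree_C_mul_le _ _).trans h2.le, ?_⟩
  rw [coeff_C_mul]
  have h3 := h1.coeff_natDegree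
  rw [h2] at h3
  rw [h3, mul_one]

theorem lead_chi (hCHI : S_CHI.{0, 0}) (d : ℕ) (hd : 2 ≤ d) :
    (chi d (fun i => (MvPolynomial.X i : MvPolynomial (Ix d) ℚ))).coeff (d ^ 3) ≠ 0 := by
  intro h
  have hd3 : 2 ^ 3 ≤ d ^ 3 := Nat.pow_le_pow_left hd 3
  let Om := AlgebraicClosure ℚ
  let ev : MvPolynomial (Ix d) ℚ →+* Om := (MvPolynomial.aeval fun _ => (0 : Om)).toRingHom
  have h1 := (hCHI.1 (MvPolynomial (Ix d) ℚ) Om ev d (fun i => MvPolynomial.X i)).2.2.2
  have h2 : (fun i : Ix d => ev (MvPolynomial.X i)) = fun _ => (0 : Om) := by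
    funext i
    exact MvPolynomial.aeval_X _ _
  rw [h2] at h1
  have hPh : (Ph d (fun _ => (0 : Om))).natDegree = d ^ 3 := by
    rw [Ph_zero]
    have e1 : (X ^ d ^ 3 - X : Om[X]) = X ^ d ^ 3 - C 1 * X := by simp
    rw [natDegree_sub_eq_left_of_natDegree_lt]
    · exact natDegree_X_pow _
    · rw [natDegree_X_pow, natDegree_X]
      omega
  have hsp := IsAlgClosed.splits (Ph d (fun _ => (0 : Om)))
  obtain ⟨c, hc, hcc⟩ := hCHI.2 Om d hd (fun _ => 0) (by
    rw [nu_zero, de_zero]
    exact isCoprime_one_right) hPh hsp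
  have hcard : ((Ph d (fun _ => (0 : Om))).roots.map (ml d fun _ => 0)).card = d ^ 3 := by
    rw [Multiset.card_map, ← hPh]
    exact (splits_iff_card_roots.1 hsp)
  have h3 := (prod_facts c _ _ hcard).2
  rw [Multiset.map_map] at h3
  have h4 : (chi d (fun _ => (0 : Om))).coeff (d ^ 3) = c := by
    rw [hcc]
    exact h3
  rw [← h1, coeff_map, h, map_zero] at h4
  exact hc h4.symm

/-- derivations -/
theorem exists_der (k L : Type) [Field k] [Field L] [Algebra k L] [CharZero k] (y : L)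
    (hy : Transcendental k y) :
    ∃ D : Derivation ℤ L L, D y = 1 ∧ ∀ z, IsAlgebraic k z → D z = 0 := by
  obtain ⟨D, hD⟩ := H497R2.exists_derivation k L hy
  refine ⟨D.restrictScalars ℤ, hD, fun z hz => ?_⟩
  have halg : IsIntegral k z := hz.isIntegral
  have hsep : (minpoly k z).Separable := (minpoly.irreducible halg).separable
  have h3 := D.map_aeval (minpoly k z) z
  rw [minpoly.aeval, map_zero, smul_eq_mul] at h3
  have h4 : aeval z (derivative (minpoly k z)) ≠ 0 :=
    hsep.aeval_derivative_ne_zero (minpoly.aeval _ _)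
  exact (mul_eq_zero.1 h3.symm).resolve_left h4

/-- **ALG** -/
theorem t_ALG (hRIG : S_RIG.{0}) (hCHI : S_CHI.{0, 0}) (hIT : S_IT.{0}) : S_ALG := by
  intro d hd R c
  refine ⟨lead_chi hCHI d hd, lead_Ph hCHI d hd, fun i => ?_⟩
  have hd3 : 2 ^ 3 ≤ d ^ 3 := Nat.pow_le_pow_left hd 3
  by_contra hcon
  set F := FractionRing R with hF
  set L₀ := IntermediateField.adjoin ℚ (Set.range fun j : Fin (d ^ 3 + 1) =>
      algebraMap R F (c.coeff j) / algebraMap R F (c.coeff (d ^ 3))) with hL₀
  have hch : CharZero F := inferInstance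
  let Om := AlgebraicClosure F
  have hchOm : CharZero Om := charZero_of_injective_algebraMap (algebraMap F Om).injective
  let φ : R →+* Om := (algebraMap F Om).comp (algebraMap R F)
  have hφ : Function.Injective φ :=
    (algebraMap F Om).injective.comp (IsFractionRing.injective R F)
  obtain ⟨O, hO1, hO2⟩ := exists_val d Om φ hφ
  let t : Ix d → Om := fun i => φ (MvPolynomial.X i)
  have hcop := cop hd O t hO2
  obtain ⟨f1, f2, f3, f4⟩ := hCHI.1 R Om φ d (fun i => MvPolynomial.X i)
  -- the degree of `Ph`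
  obtain ⟨-, g2, g3, g4, -⟩ := hIT Om d hd (nu d t) (de d t) hcop (nu_monic t) (nu_deg t)
    (de_deg hd t) 3
  have hPhc : (Ph d t).coeff (d ^ 3) ≠ 0 := by
    have e1 : Ph d t = (Ph d (fun i => (MvPolynomial.X i : R))).map φ := f3.symm
    rw [e1, coeff_map]
    exact fun h => lead_Ph hCHI d hd (hφ (by rw [h, map_zero]))
  have hPhd : (Ph d t).natDegree = d ^ 3 := by
    refine le_antisymm ?_ (le_natDegree_of_ne_zero hPhc)
    refine (natDegree_sub_le _ _).trans (max_le g3.le ?_)
    refine natDegree_mul_le.trans ?_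
    rw [natDegree_X]
    have : (Q3 d t).natDegree < d ^ 3 := g4
    omega
  have hsp := IsAlgClosed.splits (Ph d t)
  obtain ⟨c', hc', hcc⟩ := hCHI.2 Om d hd t hcop hPhd hsp
  have hcard : ((Ph d t).roots.map (ml d t)).card = d ^ 3 := by
    rw [Multiset.card_map, ← hPhd]
    exact (splits_iff_card_roots.1 hsp)
  obtain ⟨k1, k2⟩ := prod_facts c' _ _ hcard
  rw [Multiset.map_map] at k1 k2
  have k1' : (chi d t).natDegree ≤ d ^ 3 := by
    rw [hcc]
    exact k1
  have k2' : (chi d t).coeff (d ^ 3) = c' := by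
    rw [hcc]
    exact k2
  have k3 : ∀ j, (chi d t).coeff j = φ (c.coeff j) := fun j => by
    rw [← coeff_map]
    exact congrArg (fun p : Om[X] => p.coeff j) f4.symm
  -- the base field
  haveI tow : IsScalarTower L₀ F Om := inferInstance
  have htr : Transcendental L₀ (t i) := by
    intro h
    apply hcon
    have h1 : t i = algebraMap F Om (algebraMap R F (MvPolynomial.X i)) := rfl
    rw [h1] at h
    exact (isAlgebraic_algebraMap_iff (algebraMap F Om).injective).1 h
  haveI : CharZero L₀ := inferInstance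
  obtain ⟨D, hD, hDa⟩ := exists_der L₀ Om (t i) htr
  have hmemL : ∀ j : Fin (d ^ 3 + 1),
      algebraMap R F (c.coeff j) / algebraMap R F (c.coeff (d ^ 3)) ∈ L₀ := fun j =>
    IntermediateField.subset_adjoin _ _ ⟨j, rfl⟩
  have hr0 : algebraMap R F (c.coeff (d ^ 3)) ≠ 0 := fun h =>
    lead_chi hCHI d hd (IsFractionRing.injective R F (by rw [h, map_zero]))
  have hml : ∀ x, (Ph d t).eval x = 0 → D (ml d t x) = 0 := by
    intro x hx
    have hroot : (chi d t).eval (ml d t x) = 0 := by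
      rw [hcc, eval_mul, eval_multiset_prod]
      rw [Multiset.map_map]
      have h0 : Ph d t ≠ 0 := fun h => by rw [h, natDegree_zero] at hPhd; omega
      rw [Multiset.prod_eq_zero, mul_zero]
      refine Multiset.mem_map.2 ⟨x, (mem_roots h0).2 hx, ?_⟩
      simp
    let p : L₀[X] := ∑ j : Fin (d ^ 3 + 1), C (⟨_, hmemL j⟩ : L₀) * X ^ (j : ℕ)
    have hp1 : p.coeff (d ^ 3) = 1 := by
      rw [finset_sum_coeff, Finset.sum_eq_single (⟨d ^ 3, Nat.lt_succ_self _⟩ : Fin (d ^ 3 + 1))]
      · rw [coeff_C_mul, coeff_X_pow_self, mul_one]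
        apply Subtype.ext
        exact div_self hr0
      · intro j _ hj
        rw [coeff_C_mul, coeff_X_pow, if_neg, mul_zero]
        intro h
        exact hj (Fin.ext h.symm)
      · intro h
        exact absurd (Finset.mem_univ _) h
    have hp0 : p ≠ 0 := fun h => by rw [h, coeff_zero] at hp1; exact zero_ne_one hp1
    have hpe : aeval (ml d t x) p = 0 := by
      have h1 : ∀ j : Fin (d ^ 3 + 1), algebraMap L₀ Om (⟨_, hmemL j⟩ : L₀) =
          φ (c.coeff j) / φ (c.coeff (d ^ 3)) := fun j => by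
        rw [IsScalarTower.algebraMap_apply L₀ F Om]
        show algebraMap F Om (algebraMap R F (c.coeff j) / algebraMap R F (c.coeff (d ^ 3))) = _
        rw [map_div₀]
        rfl
      rw [map_sum]
      simp only [map_mul, aeval_C, map_pow, aeval_X, h1]
      rw [eval_eq_sum_range' (Nat.lt_succ_of_le k1'), Finset.sum_range] at hroot
      simp only [k3] at hroot
      have h2 : ∑ j : Fin (d ^ 3 + 1), φ (c.coeff j) / φ (c.coeff (d ^ 3)) * ml d t x ^ (j : ℕ) =
          (∑ j : Fin (d ^ 3 + 1), φ (c.coeff j) * ml d t x ^ (j : ℕ)) / φ (c.coeff (d ^ 3)) := by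
        rw [Finset.sum_div]
        refine Finset.sum_congr rfl fun j _ => ?_
        ring
      rw [h2, hroot, zero_div]
    exact hDa _ ⟨p, hp0, hpe⟩
  have hfin := hRIG Om O d hd t hO1 hO2 hsp D (fun x hx => hml x hx) i
  have : D (t i) = 0 := hfin
  rw [hD] at this
  exact one_ne_zero this

end Pool.Agent.X169.GN
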